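import Mathlib

/-!
# MP_aff17b_co: the gcd condition implies that the lecture hall simplex is level
-/

set_option autoImplicit false

namespace Pool.Agent.Results.MP_aff17b_co.GcdConditionLevel

/-- The lecture hall simplex `0 ≤ x_1/s_1 ≤ x_2/s_2 ≤ ⋯ ≤ x_n/s_n ≤ 1` (coordinates are indexed by
`Fin (n + 1)`, so its dimension is `n + 1`). -/
def simplex {n : ℕ} (s : Fin (n + 1) → ℕ) : Set (Fin (n + 1) → ℝ) :=
  {x | 0 ≤ x 0 / (s 0 : ℝ) ∧
    (∀ j : Fin n, x j.castSucc / (s j.castSucc : ℝ) ≤ x j.succ / (s j.succ : ℝ)) ∧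
    x (Fin.last n) / (s (Fin.last n) : ℝ) ≤ 1}

/-- The cone over `P × {1}`: all points `r (x, 1)` with `r ≥ 0` and `x ∈ P`. -/
def cone {d : ℕ} (P : Set (Fin d → ℝ)) : Set ((Fin d → ℝ) × ℝ) :=
  {p | ∃ r : ℝ, 0 ≤ r ∧ ∃ x ∈ P, p = (r • x, r)}

/-- The lattice point `(x, t)` lies in the cone over `P × {1}`. -/
def ConePt {d : ℕ} (P : Set (Fin d → ℝ)) (x : Fin d → ℤ) (t : ℤ) : Prop :=
  ((fun i => (x i : ℝ)), (t : ℝ)) ∈ cone P

/-- The lattice point `(x, t)` lies in the interior of the cone over `P × {1}`. -/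
def InteriorPt {d : ℕ} (P : Set (Fin d → ℝ)) (x : Fin d → ℤ) (t : ℤ) : Prop :=
  ((fun i => (x i : ℝ)), (t : ℝ)) ∈ interior (cone P)

/-- `P` is level: if `d₀` is the least height of an interior lattice point of the cone over
`P × {1}`, every interior lattice point is `u + v` with `u` an interior lattice point of height `d₀`
and `v` a lattice point of the cone. -/
def IsLevel {d : ℕ} (P : Set (Fin d → ℝ)) : Prop :=
  ∃ d₀ : ℤ, IsLeast {t : ℤ | ∃ x : Fin d → ℤ, InteriorPt P x t} d₀ ∧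
    ∀ (x : Fin d → ℤ) (t : ℤ), InteriorPt P x t →
      ∃ (u v : Fin d → ℤ) (t' : ℤ), InteriorPt P u d₀ ∧ ConePt P v t' ∧
        x = u + v ∧ t = d₀ + t'

variable {n : ℕ} {s : Fin (n + 1) → ℕ}

theorem mem_cone_iff (hs : ∀ i, 1 ≤ s i) (x : Fin (n + 1) → ℝ) (t : ℝ) :
    (x, t) ∈ cone (simplex s) ↔ 0 ≤ x 0 / (s 0 : ℝ) ∧
      (∀ j : Fin n, x j.castSucc / (s j.castSucc : ℝ) ≤ x j.succ / (s j.succ : ℝ)) ∧
      x (Fin.last n) / (s (Fin.last n) : ℝ) ≤ t := by
  constructor
  · rintro ⟨r, hr, y, ⟨h1, h2, h3⟩, hp⟩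
    obtain ⟨rfl, rfl⟩ := Prod.mk.inj hp
    simp only [Pi.smul_apply, smul_eq_mul, mul_div_assoc]
    refine ⟨mul_nonneg hr h1, fun j => mul_le_mul_of_nonneg_left (h2 j) hr, ?_⟩
    calc t * (y (Fin.last n) / (s (Fin.last n) : ℝ)) ≤ t * 1 := mul_le_mul_of_nonneg_left h3 hr
      _ = t := mul_one t
  · rintro ⟨h1, h2, h3⟩
    have hmono : Monotone (fun i : Fin (n + 1) => x i / (s i : ℝ)) :=
      Fin.monotone_iff_le_succ.mpr h2
    have hnn : ∀ i, 0 ≤ x i / (s i : ℝ) := fun i => h1.trans (hmono (Fin.zero_le i))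
    have hle : ∀ i, x i / (s i : ℝ) ≤ t := fun i => (hmono (Fin.le_last i)).trans h3
    have ht : 0 ≤ t := (hnn 0).trans (hle 0)
    rcases ht.eq_or_lt with ht0 | ht0
    · refine ⟨0, le_rfl, 0, ⟨by simp, by simp, by simp⟩, ?_⟩
      have hx : x = 0 := by
        funext i
        have hsi : (0 : ℝ) < s i := by exact_mod_cast hs i
        have h4 := hle i
        rw [← ht0] at h4
        have h5 : x i / (s i : ℝ) = 0 := le_antisymm h4 (hnn i)
        rcases div_eq_zero_iff.mp h5 with h6 | h6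
        · exact h6
        · exact absurd h6 (ne_of_gt hsi)
      rw [hx, ← ht0]
      simp
    · refine ⟨t, ht, t⁻¹ • x, ⟨?_, ?_, ?_⟩, ?_⟩
      · simp only [Pi.smul_apply, smul_eq_mul, mul_div_assoc]
        exact mul_nonneg (inv_nonneg.mpr ht) h1
      · intro j
        simp only [Pi.smul_apply, smul_eq_mul, mul_div_assoc]
        exact mul_le_mul_of_nonneg_left (h2 j) (inv_nonneg.mpr ht)
      · simp only [Pi.smul_apply, smul_eq_mul, mul_div_assoc]
        rw [inv_mul_le_iff₀ ht0, mul_one]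
        exact h3
      · rw [smul_smul, mul_inv_cancel₀ (ne_of_gt ht0), one_smul]

theorem mem_interior_cone_iff (hs : ∀ i, 1 ≤ s i) (x : Fin (n + 1) → ℝ) (t : ℝ) :
    (x, t) ∈ interior (cone (simplex s)) ↔ 0 < x 0 / (s 0 : ℝ) ∧
      (∀ j : Fin n, x j.castSucc / (s j.castSucc : ℝ) < x j.succ / (s j.succ : ℝ)) ∧
      x (Fin.last n) / (s (Fin.last n) : ℝ) < t := by
  have hsp : ∀ i, (0 : ℝ) < s i := fun i => by exact_mod_cast hs i
  constructor
  · intro hx
    rw [mem_interior_iff_mem_nhds, Metric.mem_nhds_iff] at hx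
    obtain ⟨ε, hε, hb⟩ := hx
    -- perturb coordinate `i` downwards
    have key : ∀ i : Fin (n + 1), (Function.update x i (x i - ε / 2), t) ∈ cone (simplex s) := by
      intro i
      apply hb
      rw [Metric.mem_ball, dist_eq_norm]
      have h1 : ((Function.update x i (x i - ε / 2), t) - (x, t) : (Fin (n + 1) → ℝ) × ℝ) =
          (Function.update x i (x i - ε / 2) - x, 0) := by
        simp
      rw [h1, Prod.norm_def]
      simp only [norm_zero]
      rw [max_lt_iff]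
      refine ⟨?_, hε⟩
      rw [pi_norm_lt_iff hε]
      intro j
      rw [Pi.sub_apply, Function.update_apply]
      split_ifs with h
      · subst h
        rw [Real.norm_eq_abs]
        have : x j - ε / 2 - x j = -(ε / 2) := by ring
        rw [this, abs_neg, abs_of_pos (by linarith)]
        linarith
      · simp [hε]
    have key2 : (x, t - ε / 2) ∈ cone (simplex s) := by
      apply hb
      rw [Metric.mem_ball, dist_eq_norm]
      have h1 : ((x, t - ε / 2) - (x, t) : (Fin (n + 1) → ℝ) × ℝ) = (0, -(ε / 2)) := by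
        simp
      rw [h1, Prod.norm_def]
      simp only [norm_zero]
      rw [max_lt_iff]
      refine ⟨hε, ?_⟩
      rw [Real.norm_eq_abs, abs_neg, abs_of_pos (by linarith)]
      linarith
    refine ⟨?_, ?_, ?_⟩
    · have h := ((mem_cone_iff hs _ _).mp (key 0)).1
      rw [Function.update_self] at h
      have h2 : (x 0 - ε / 2) / (s 0 : ℝ) < x 0 / (s 0 : ℝ) :=
        div_lt_div_of_pos_right (by linarith) (hsp 0)
      linarith
    · intro j
      have h := ((mem_cone_iff hs _ _).mp (key j.succ)).2.1 j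
      rw [Function.update_self, Function.update_of_ne (ne_of_lt (Fin.castSucc_lt_succ))] at h
      have h2 : (x j.succ - ε / 2) / (s j.succ : ℝ) < x j.succ / (s j.succ : ℝ) :=
        div_lt_div_of_pos_right (by linarith) (hsp _)
      linarith
    · have h := ((mem_cone_iff hs _ _).mp key2).2.2
      linarith
  · rintro ⟨h1, h2, h3⟩
    rw [mem_interior]
    refine ⟨{p : (Fin (n + 1) → ℝ) × ℝ | 0 < p.1 0 / (s 0 : ℝ) ∧
      (∀ j : Fin n, p.1 j.castSucc / (s j.castSucc : ℝ) < p.1 j.succ / (s j.succ : ℝ)) ∧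
      p.1 (Fin.last n) / (s (Fin.last n) : ℝ) < p.2}, ?_, ?_, ⟨h1, h2, h3⟩⟩
    · rintro ⟨y, r⟩ ⟨k1, k2, k3⟩
      exact (mem_cone_iff hs y r).mpr ⟨k1.le, fun j => (k2 j).le, k3.le⟩
    · have hc : ∀ i : Fin (n + 1), Continuous fun p : (Fin (n + 1) → ℝ) × ℝ => p.1 i / (s i : ℝ) :=
        fun i => ((continuous_apply i).comp continuous_fst).div_const _
      refine IsOpen.inter (isOpen_lt continuous_const (hc 0)) (IsOpen.inter ?_ ?_)
      · have : {p : (Fin (n + 1) → ℝ) × ℝ | ∀ j : Fin n,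
            p.1 j.castSucc / (s j.castSucc : ℝ) < p.1 j.succ / (s j.succ : ℝ)} =
            ⋂ j : Fin n, {p | p.1 j.castSucc / (s j.castSucc : ℝ) < p.1 j.succ / (s j.succ : ℝ)} := by
          ext p; simp
        change IsOpen {p : (Fin (n + 1) → ℝ) × ℝ | ∀ j : Fin n,
            p.1 j.castSucc / (s j.castSucc : ℝ) < p.1 j.succ / (s j.succ : ℝ)}
        rw [this]
        exact isOpen_iInter_of_finite (fun j => isOpen_lt (hc _) (hc _))
      · exact isOpen_lt (hc _) continuous_snd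

theorem div_le_div_iff_int (a b : ℤ) (p q : ℕ) (hp : 1 ≤ p) (hq : 1 ≤ q) :
    (a : ℝ) / (p : ℝ) ≤ (b : ℝ) / (q : ℝ) ↔ a * q ≤ b * p := by
  have hp' : (0 : ℝ) < p := by exact_mod_cast hp
  have hq' : (0 : ℝ) < q := by exact_mod_cast hq
  rw [div_le_div_iff₀ hp' hq']
  exact_mod_cast Iff.rfl

theorem div_lt_div_iff_int (a b : ℤ) (p q : ℕ) (hp : 1 ≤ p) (hq : 1 ≤ q) :
    (a : ℝ) / (p : ℝ) < (b : ℝ) / (q : ℝ) ↔ a * q < b * p := by
  have hp' : (0 : ℝ) < p := by exact_mod_cast hp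
  have hq' : (0 : ℝ) < q := by exact_mod_cast hq
  rw [div_lt_div_iff₀ hp' hq']
  exact_mod_cast Iff.rfl

theorem conePt_iff (hs : ∀ i, 1 ≤ s i) (x : Fin (n + 1) → ℤ) (t : ℤ) :
    ConePt (simplex s) x t ↔ 0 ≤ x 0 ∧
      (∀ j : Fin n, x j.castSucc * s j.succ ≤ x j.succ * s j.castSucc) ∧
      x (Fin.last n) ≤ t * s (Fin.last n) := by
  have hsp : ∀ i, (0 : ℝ) < s i := fun i => by exact_mod_cast hs i
  unfold ConePt
  rw [mem_cone_iff hs]
  have e1 : 0 ≤ ((x 0 : ℤ) : ℝ) / (s 0 : ℝ) ↔ 0 ≤ x 0 := by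
    rw [le_div_iff₀ (hsp 0), zero_mul]
    exact_mod_cast Iff.rfl
  have e3 : ((x (Fin.last n) : ℤ) : ℝ) / (s (Fin.last n) : ℝ) ≤ (t : ℝ) ↔
      x (Fin.last n) ≤ t * s (Fin.last n) := by
    rw [div_le_iff₀ (hsp _)]
    exact_mod_cast Iff.rfl
  rw [e1, e3]
  have e2 : ∀ j : Fin n, (((x j.castSucc : ℤ) : ℝ) / (s j.castSucc : ℝ) ≤
      ((x j.succ : ℤ) : ℝ) / (s j.succ : ℝ) ↔ x j.castSucc * s j.succ ≤ x j.succ * s j.castSucc) :=
    fun j => div_le_div_iff_int _ _ _ _ (hs _) (hs _)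
  simp only [e2]

theorem interiorPt_iff (hs : ∀ i, 1 ≤ s i) (x : Fin (n + 1) → ℤ) (t : ℤ) :
    InteriorPt (simplex s) x t ↔ 0 < x 0 ∧
      (∀ j : Fin n, x j.castSucc * s j.succ < x j.succ * s j.castSucc) ∧
      x (Fin.last n) < t * s (Fin.last n) := by
  have hsp : ∀ i, (0 : ℝ) < s i := fun i => by exact_mod_cast hs i
  unfold InteriorPt
  rw [mem_interior_cone_iff hs]
  have e1 : 0 < ((x 0 : ℤ) : ℝ) / (s 0 : ℝ) ↔ 0 < x 0 := by
    rw [lt_div_iff₀ (hsp 0), zero_mul]
    exact_mod_cast Iff.rfl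
  have e3 : ((x (Fin.last n) : ℤ) : ℝ) / (s (Fin.last n) : ℝ) < (t : ℝ) ↔
      x (Fin.last n) < t * s (Fin.last n) := by
    rw [div_lt_iff₀ (hsp _)]
    exact_mod_cast Iff.rfl
  rw [e1, e3]
  have e2 : ∀ j : Fin n, (((x j.castSucc : ℤ) : ℝ) / (s j.castSucc : ℝ) <
      ((x j.succ : ℤ) : ℝ) / (s j.succ : ℝ) ↔ x j.castSucc * s j.succ < x j.succ * s j.castSucc) :=
    fun j => div_lt_div_iff_int _ _ _ _ (hs _) (hs _)
  simp only [e2]

/-- `x₁ s₀ - x₀ s₁ ≥ gcd (s₀, s₁)` once it is positive -/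
theorem gcd_le_of_lt (x y : ℤ) (p q : ℕ) (h : x * q < y * p) :
    x * q + (Nat.gcd p q : ℤ) ≤ y * p := by
  have hd : (Nat.gcd p q : ℤ) ∣ y * p - x * q := by
    apply dvd_sub
    · exact Dvd.dvd.mul_left (by exact_mod_cast Nat.gcd_dvd_left p q) _
    · exact Dvd.dvd.mul_left (by exact_mod_cast Nat.gcd_dvd_right p q) _
  have := Int.le_of_dvd (by linarith) hd
  linarith

/-- **Main theorem.** If `s ∈ ℤ_{≥1}^n` admits an integer vector `c` with `c_1 = 1` and
`c_j s_{j-1} = c_{j-1} s_j + gcd(s_{j-1}, s_j)`, then the lecture hall simplex `P_n^{(s)}` is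
level. -/
theorem result (n : ℕ) (s : Fin (n + 1) → ℕ) (hs : ∀ i, 1 ≤ s i)
    (c : Fin (n + 1) → ℤ) (hc0 : c 0 = 1)
    (hc : ∀ j : Fin n, c j.succ * (s j.castSucc : ℤ) =
      c j.castSucc * (s j.succ : ℤ) + (Nat.gcd (s j.castSucc) (s j.succ) : ℤ)) :
    IsLevel (simplex s) := by
  have hsp : ∀ i, (0 : ℤ) < s i := fun i => by exact_mod_cast hs i
  set N := Fin.last n with hN
  set d : ℤ := c N / (s N : ℤ) + 1 with hd
  have hd1 : c N < d * s N := by
    rw [hd]
    have h1 := Int.mul_ediv_add_emod (c N) (s N : ℤ)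
    have h2 := Int.emod_lt_of_pos (c N) (hsp N)
    nlinarith
  -- every interior point is `c` plus a point of the cone without the last inequality
  have hmain : ∀ (x : Fin (n + 1) → ℤ) (t : ℤ), InteriorPt (simplex s) x t →
      0 ≤ x 0 - c 0 ∧ (∀ j : Fin n, (x j.castSucc - c j.castSucc) * (s j.succ : ℤ) ≤
        (x j.succ - c j.succ) * (s j.castSucc : ℤ)) := by
    intro x t hx
    rw [interiorPt_iff hs] at hx
    obtain ⟨h1, h2, _⟩ := hx
    refine ⟨by rw [hc0]; omega, fun j => ?_⟩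
    have h4 := gcd_le_of_lt _ _ _ _ (h2 j)
    have h5 := hc j
    linarith
  -- nonnegativity of all coordinates of such a vector
  have hnn : ∀ y : Fin (n + 1) → ℤ, 0 ≤ y 0 → (∀ j : Fin n, y j.castSucc * (s j.succ : ℤ) ≤
      y j.succ * (s j.castSucc : ℤ)) → ∀ i, 0 ≤ y i := by
    intro y h0 h i
    induction i using Fin.induction with
    | zero => exact h0
    | succ j ih =>
      have h1 := h j
      have h2 : 0 ≤ y j.castSucc * (s j.succ : ℤ) := mul_nonneg ih (hsp _).le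
      have h3 : 0 ≤ y j.succ * (s j.castSucc : ℤ) := h2.trans h1
      exact nonneg_of_mul_nonneg_left h3 (hsp _)
  have hcint : InteriorPt (simplex s) c d := by
    rw [interiorPt_iff hs]
    refine ⟨by rw [hc0]; norm_num, fun j => ?_, hd1⟩
    have h1 := hc j
    have h2 : (0 : ℤ) < (Nat.gcd (s j.castSucc) (s j.succ) : ℤ) := by
      exact_mod_cast Nat.gcd_pos_of_pos_left _ (hs j.castSucc)
    linarith
  have hlow : ∀ (x : Fin (n + 1) → ℤ) (t : ℤ), InteriorPt (simplex s) x t → d ≤ t := by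
    intro x t hx
    obtain ⟨h1, h2⟩ := hmain x t hx
    have h3 := hnn (fun i => x i - c i) h1 h2 N
    have h4 := ((interiorPt_iff hs x t).mp hx).2.2
    have h5 : c N < t * s N := by
      have : c N ≤ x N := by linarith
      linarith
    rw [hd]
    have : c N / (s N : ℤ) < t := Int.ediv_lt_of_lt_mul (hsp N) h5
    omega
  refine ⟨d, ⟨⟨c, hcint⟩, ?_⟩, ?_⟩
  · rintro t ⟨x, hx⟩
    exact hlow x t hx
  · intro x t hx
    obtain ⟨h1, h2⟩ := hmain x t hx
    have h3 := hnn (fun i => x i - c i) h1 h2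
    have hdt := hlow x t hx
    obtain ⟨m, hm⟩ : ∃ m : ℤ, m = t - d := ⟨_, rfl⟩
    have hm0 : 0 ≤ m := by omega
    -- decomposition
    refine ⟨fun i => c i + max 0 (x i - c i - m * s i), fun i => min (x i - c i) (m * s i), m,
      ?_, ?_, ?_, by omega⟩
    · rw [interiorPt_iff hs]
      refine ⟨?_, ?_, ?_⟩
      · simp only [hc0]
        have := le_max_left 0 (x 0 - 1 - m * s 0)
        linarith
      · intro j
        have h5 := hc j
        have h6 : (0 : ℤ) < (Nat.gcd (s j.castSucc) (s j.succ) : ℤ) := by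
          exact_mod_cast Nat.gcd_pos_of_pos_left _ (hs j.castSucc)
        have h7 : max 0 (x j.castSucc - c j.castSucc - m * s j.castSucc) * (s j.succ : ℤ) ≤
            max 0 (x j.succ - c j.succ - m * s j.succ) * (s j.castSucc : ℤ) := by
          rw [max_mul_of_nonneg _ _ (hsp _).le, max_mul_of_nonneg _ _ (hsp _).le]
          simp only [zero_mul]
          apply max_le_max le_rfl
          have := h2 j
          nlinarith
        nlinarith
      · show _
        have h5 := ((interiorPt_iff hs x t).mp hx).2.2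
        rcases le_total 0 (x N - c N - m * s N) with h6 | h6
        · rw [max_eq_right h6]
          have : t = m + d := by omega
          subst this
          nlinarith
        · rw [max_eq_left h6]
          linarith
    · rw [conePt_iff hs]
      refine ⟨?_, ?_, ?_⟩
      · exact le_min (by exact h1) (mul_nonneg hm0 (hsp 0).le)
      · intro j
        rw [min_mul_of_nonneg _ _ (hsp _).le, min_mul_of_nonneg _ _ (hsp _).le]
        apply min_le_min (h2 j)
        apply le_of_eq; ring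
      · exact min_le_right _ _
    · funext i
      simp only [Pi.add_apply]
      rcases le_total 0 (x i - c i - m * s i) with h6 | h6
      · rw [max_eq_right h6, min_eq_right (by linarith)]; ring
      · rw [max_eq_left h6, min_eq_left (by linarith)]; ring

end Pool.Agent.Results.MP_aff17b_co.GcdConditionLevel
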